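import Pool.Agent.Y589.CP.Base

/-! helper27's space: `C_p(X, K)` is Lindelöf only when `K` has at most two points. -/

set_option autoImplicit false

namespace Pool.Agent.Y589.CP

open CpM Set Topology

/-! ### the criterion -/

theorem not_meta {P : Type} [TopologicalSpace P] (UP : ℕ → Set P) (hU1 : ∀ n, IsOpen (UP n))
    (hU2 : ∀ n m, n ≤ m → UP n ⊆ UP m) (hU3 : ∀ p, ∃ n, p ∈ UP n)
    (hcm : ∀ F : ℕ → Set P, (∀ n, IsClosed (F n)) → (∀ n, F n ⊆ UP n) → ∃ p, ∀ n, p ∉ F n) :
    ¬ Metacompact P := by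
  classical
  intro h
  obtain ⟨𝒱, hV1, hV2, hV3, hV4⟩ := h (Set.range UP) (by rintro _ ⟨n, rfl⟩; exact hU1 n) (by
    rw [Set.eq_univ_iff_forall]
    intro p
    obtain ⟨n, hn⟩ := hU3 p
    exact ⟨UP n, ⟨n, rfl⟩, hn⟩)
  have hn : ∀ V : Set P, ∃ n, V ∈ 𝒱 → V ⊆ UP n := by
    intro V
    by_cases hV : V ∈ 𝒱
    · obtain ⟨U, ⟨n, rfl⟩, hU⟩ := hV3 V hV
      exact ⟨n, fun _ => hU⟩
    · exact ⟨0, fun h' => absurd h' hV⟩
  choose nV hnV using hn
  obtain ⟨p, hp⟩ := hcm (fun N => {p | ∀ V ∈ 𝒱, p ∈ V → nV V ≤ N}) (by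
    intro N
    rw [← isOpen_compl_iff]
    have e : {p : P | ∀ V ∈ 𝒱, p ∈ V → nV V ≤ N}ᶜ =
        ⋃₀ {V | V ∈ 𝒱 ∧ N < nV V} := by
      ext p
      constructor
      · intro hp
        have hp' : ¬ ∀ V ∈ 𝒱, p ∈ V → nV V ≤ N := hp
        push Not at hp'
        obtain ⟨V, hV, hpV, hlt⟩ := hp'
        exact ⟨V, ⟨hV, hlt⟩, hpV⟩
      · rintro ⟨V, ⟨hV, hlt⟩, hpV⟩ hp
        exact absurd (hp V hV hpV) (not_le.2 hlt)
    rw [e]
    exact isOpen_sUnion fun V hV => hV1 V hV.1) (by
    intro N p hp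
    have hpu : p ∈ ⋃₀ 𝒱 := by rw [hV2]; trivial
    obtain ⟨V, hV, hpV⟩ := hpu
    exact hU2 _ _ (hp V hV hpV) (hnV V hV hpV))
  have hfin := hV4 p
  apply hp (hfin.toFinset.sup nV)
  intro V hV hpV
  exact Finset.le_sup (f := nV) (hfin.mem_toFinset.2 ⟨hV, hpV⟩)

theorem not_sub_closed {P : Type} [TopologicalSpace P] (ℋ : Set (Set P))
    (hcl : ∀ H ∈ ℋ, IsClosed H)
    (hd : ∀ p : P, ∃ O, IsOpen O ∧ p ∈ O ∧ {H | H ∈ ℋ ∧ (H ∩ O).Nonempty}.Subsingleton)
    (S : Set (Set P)) (hS : S ⊆ ℋ) : IsClosed (⋃₀ S) := by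
  rw [← isOpen_compl_iff, isOpen_iff_forall_mem_open]
  intro p hp
  obtain ⟨O, hO, hpO, hsub⟩ := hd p
  by_cases h : ∃ H ∈ S, (H ∩ O).Nonempty
  · obtain ⟨H0, hH0, hne⟩ := h
    refine ⟨O ∩ H0ᶜ, ?_, hO.inter (hcl H0 (hS hH0)).isOpen_compl, hpO, fun h => hp ⟨H0, hH0, h⟩⟩
    rintro q ⟨hqO, hq0⟩ ⟨H, hH, hqH⟩
    have : H = H0 := hsub ⟨hS hH, ⟨q, hqH, hqO⟩⟩ ⟨hS hH0, hne⟩
    rw [this] at hqH
    exact hq0 hqH
  · refine ⟨O, ?_, hO, hpO⟩
    rintro q hqO ⟨H, hH, hqH⟩
    exact h ⟨H, hH, ⟨q, hqH, hqO⟩⟩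

theorem not_sub {P : Type} [TopologicalSpace P] (UP : ℕ → Set P) (hop : ∀ n, IsOpen (UP n))
    (hmono : ∀ n m, n ≤ m → UP n ⊆ UP m) (hcov : ∀ p, ∃ n, p ∈ UP n)
    (hcm : ∀ F : ℕ → Set P, (∀ n, IsClosed (F n)) → (∀ n, F n ⊆ UP n) → ∃ p, ∀ n, p ∉ F n) :
    ¬ Subparacompact P := by
  intro h
  obtain ⟨ℋ, h1, h2, h3⟩ := h (Set.range UP) (by
    rintro _ ⟨n, rfl⟩
    exact hop n) (by
    rw [Set.eq_univ_iff_forall]
    intro p
    obtain ⟨n, hn⟩ := hcov p
    exact ⟨UP n, ⟨n, rfl⟩, hn⟩)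
  obtain ⟨p, hp⟩ := hcm (fun n => ⋃ k ∈ Set.Iic n, ⋃₀ {H | H ∈ ℋ k ∧ H ⊆ UP n}) (by
    intro n
    apply (Set.finite_Iic n).isClosed_biUnion
    intro k _
    exact not_sub_closed (ℋ k) (fun H hH => (h1 k H hH).1) (fun p => h3 k p) _
      (fun H hH => hH.1)) (by
    intro n q hq
    rw [Set.mem_iUnion₂] at hq
    obtain ⟨k, _, H, hH, hqH⟩ := hq
    exact hH.2 hqH)
  have hpu : p ∈ ⋃ n, ⋃₀ ℋ n := by rw [h2]; trivial
  rw [Set.mem_iUnion] at hpu
  obtain ⟨k, H, hH, hpH⟩ := hpu
  obtain ⟨U, ⟨m, rfl⟩, hHU⟩ := (h1 k H hH).2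
  apply hp (max k m)
  rw [Set.mem_iUnion₂]
  exact ⟨k, le_max_left k m, H, ⟨hH, hHU.trans (hmono m _ (le_max_right k m))⟩, hpH⟩

/-! ### the old part is clopen -/

/-- indicator of the old part -/
def Ob : XX → Bool
  | Sum.inl (.pt _) => false
  | Sum.inl (.bi _ _) => false
  | Sum.inl _ => true
  | Sum.inr _ => false

theorem Ob_dom (y : YY) (q : NN) (hq : q ∈ dom y) : rs Ob q = rs Ob (pnt y) := by
  cases y with
  | inf =>
    cases q with
    | inf => rfl
    | x s => rfl
    | iso s r => rfl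
    | pt i => exact hq.elim
    | bi i r => exact hq.elim
  | x s => obtain ⟨r, rfl⟩ := hq; rfl
  | pt i => obtain ⟨r, rfl⟩ := hq; rfl

theorem Ob_continuous : Continuous Ob := by
  refine continuous_iff.2 ⟨?_, ?_, ?_⟩
  · intro y
    exact ⟨∅, ∅, fun q hq hne => absurd (Ob_dom y q hq) hne⟩
  · intro p hp
    refine Set.finite_empty.subset ?_
    rintro q ⟨hq, hne⟩
    exact hne (Ob_dom _ _ ((EE_valid p hp).subset_dom hq))
  · intro t
    refine Set.finite_empty.subset ?_
    rintro q ⟨⟨r, rfl, _⟩, hne⟩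
    exact hne rfl

/-- the closed part of the square -/
def DD : Set (Cp × Cp) := {p | ∀ x, (p.2.1 x = true → Ob x = true → p.1.1 x = true) ∧
  (p.1.1 x = true → Ob x = true)}

theorem DD_closed : IsClosed DD := by
  have h : DD = ⋂ x : XX, (fun p : Cp × Cp => (p.1.1 x, p.2.1 x)) ⁻¹'
      {c : Bool × Bool | (c.2 = true → Ob x = true → c.1 = true) ∧ (c.1 = true → Ob x = true)} := by
    ext p
    simp [DD]
  rw [h]
  refine isClosed_iInter fun x => ?_
  refine (isClosed_discrete _).preimage ?_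
  exact ((continuous_apply x).comp (continuous_subtype_val.comp continuous_fst)).prodMk
    ((continuous_apply x).comp (continuous_subtype_val.comp continuous_snd))

theorem Psi_mem (x : ℕ → C) (t : TT) : Psi x t ∈ DD := by
  intro y
  rw [(Psi_val x t).1, (Psi_val x t).2]
  rcases y with q | t'
  · cases q with
    | inf => simp [hF, bF, Ob, hz, bfull]
    | x s => simp [hF, bF, Ob, hz, bfull]
    | iso s r =>
      simp only [hF, bF, Ob, hz, bfull, decide_eq_true_eq, mem_setOf_eq]
      refine ⟨?_, fun _ => trivial⟩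
      rintro ⟨s', r', h, h1, h2⟩ -
      simp only [NN.iso.injEq] at h
      rw [h.1]
      exact h1
    | pt i => simp [hF, bF, Ob, hz]
    | bi i r => simp [hF, bF, Ob, hz]
  · simp [hF, Ob]

theorem DD_cover : (∀ n, IsOpen {p : DD | p.1 ∈ UU n}) ∧
    (∀ n m, n ≤ m → {p : DD | p.1 ∈ UU n} ⊆ {p : DD | p.1 ∈ UU m}) ∧
    ∀ p : DD, ∃ n, p ∈ {p : DD | p.1 ∈ UU n} :=
  ⟨fun n => (UU_cover.1 n).preimage continuous_subtype_val,
    fun n m h p hp => UU_cover.2.1 n m h hp, fun p => UU_cover.2.2 p.1⟩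

theorem DD_ccm (F : ℕ → Set DD) (hF : ∀ n, IsClosed (F n)) (hFU : ∀ n, F n ⊆ {p : DD | p.1 ∈ UU n}) :
    ∃ p, ∀ n, p ∉ F n := by
  obtain ⟨x, t, -, h⟩ := CM (fun n => Subtype.val '' F n)
    (fun n => DD_closed.isClosedEmbedding_subtypeVal.isClosedMap _ (hF n)) (by
    rintro n x t hrel ⟨p, hp, hpe⟩
    have hp' := hFU n hp
    rw [mem_setOf_eq, hpe] at hp'
    rcases hp' with h1 | ⟨t', h1, h2⟩
    · exact absurd ⟨t, x, hrel, rfl⟩ h1
    · refine ⟨t', h1, ?_⟩
      rw [(Psi_val x t).2] at h2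
      unfold bF ir at h2
      simpa using h2)
  exact ⟨⟨Psi x t, Psi_mem x t⟩, fun n hn => h n ⟨_, hn, rfl⟩⟩

theorem DD_not_meta : ¬ Metacompact DD :=
  not_meta _ DD_cover.1 DD_cover.2.1 DD_cover.2.2 DD_ccm

theorem DD_not_sub : ¬ Subparacompact DD :=
  not_sub _ DD_cover.1 DD_cover.2.1 DD_cover.2.2 DD_ccm

theorem DD_not_lindelof : ¬ LindelofSpace DD := fun h => DD_not_meta meta_of_lindelof

/-! ### three values -/

/-- coding of two bits -/
def vv (c : Bool × Bool) : Fin 3 := if c.2 then 2 else if c.1 then 1 else 0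

theorem vv_one (a b o : Bool) (h : (b = true → o = true → a = true) ∧ (a = true → o = true)) :
    (o && decide (vv (a, b) ≠ 0)) = a := by
  revert h
  cases a <;> cases b <;> cases o <;> simp [vv]

theorem vv_two (a b : Bool) : decide (vv (a, b) = 2) = b := by
  cases a <;> cases b <;> simp [vv]

/-- the closed part of `C_p(X, 3)` -/
def WW : Set (CK XX (Fin 3)) := {h | ∀ x, h.1 x = 1 → Ob x = true}

theorem WW_closed : IsClosed WW := by
  have h : WW = ⋂ x : XX, (fun h : CK XX (Fin 3) => h.1 x) ⁻¹' {c : Fin 3 | c = 1 → Ob x = true} := by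
    ext p
    simp [WW]
  rw [h]
  refine isClosed_iInter fun x => ?_
  exact (isClosed_discrete _).preimage ((continuous_apply x).comp continuous_subtype_val)

/-- the homeomorphism -/
def hom : DD ≃ₜ WW where
  toFun p := ⟨⟨fun x => vv (p.1.1.1 x, p.1.2.1 x),
    (continuous_of_discreteTopology (f := vv)).comp (p.1.1.2.prodMk p.1.2.2)⟩, by
      intro x hx
      have hx' : vv (p.1.1.1 x, p.1.2.1 x) = 1 := hx
      have h := p.2 x
      revert hx' h
      cases p.1.1.1 x <;> cases p.1.2.1 x <;> simp [vv]⟩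
  invFun h := ⟨(⟨fun x => Ob x && decide (h.1.1 x ≠ 0),
      (continuous_of_discreteTopology (f := fun c : Bool × Fin 3 => c.1 && decide (c.2 ≠ 0))).comp
        (Ob_continuous.prodMk h.1.2)⟩,
    ⟨fun x => decide (h.1.1 x = 2),
      (continuous_of_discreteTopology (f := fun c : Fin 3 => decide (c = 2))).comp h.1.2⟩), by
      intro x
      simp only
      cases Ob x <;> simp +contextual⟩
  left_inv p := by
    apply Subtype.ext
    refine Prod.ext (Subtype.ext (funext fun x => ?_)) (Subtype.ext (funext fun x => ?_))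
    · exact vv_one _ _ _ (p.2 x)
    · exact vv_two _ _
  right_inv h := by
    apply Subtype.ext
    refine Subtype.ext (funext fun x => ?_)
    have h1 := h.2 x
    revert h1
    simp only
    generalize h.1.1 x = c
    fin_cases c <;> cases Ob x <;> simp [vv]
  continuous_toFun := by
    refine Continuous.subtype_mk (Continuous.subtype_mk (continuous_pi fun x => ?_) _) _
    refine (continuous_of_discreteTopology (f := vv)).comp (Continuous.prodMk ?_ ?_)
    · exact (continuous_apply x).comp (continuous_subtype_val.comp (continuous_fst.comp continuous_subtype_val))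
    · exact (continuous_apply x).comp (continuous_subtype_val.comp (continuous_snd.comp continuous_subtype_val))
  continuous_invFun := by
    have hev : ∀ x : XX, Continuous fun h : WW => h.1.1 x := fun x =>
      (continuous_apply x).comp (continuous_subtype_val.comp continuous_subtype_val)
    refine Continuous.subtype_mk (Continuous.prodMk (Continuous.subtype_mk (continuous_pi fun x => ?_) _)
      (Continuous.subtype_mk (continuous_pi fun x => ?_) _)) _
    · exact (continuous_of_discreteTopology (f := fun c : Fin 3 => Ob x && decide (c ≠ 0))).comp (hev x)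
    · exact (continuous_of_discreteTopology (f := fun c : Fin 3 => decide (c = 2))).comp (hev x)

theorem hom_embedding : IsClosedEmbedding (fun p : DD => ((hom p).1 : CK XX (Fin 3))) :=
  WW_closed.isClosedEmbedding_subtypeVal.comp hom.isClosedEmbedding

/-! ### the two halves -/

theorem cp_lindelof : LindelofSpace (CK XX Bool) := by
  have h1 : BB = {f : XX → Bool | Continuous f} := by
    ext F
    exact continuous_iff.symm
  have h2 : IsLindelof {f : XX → Bool | Continuous f} := h1 ▸ isLindelof_BB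
  exact isLindelof_iff_lindelofSpace.1 h2

theorem pos {K : Type} [TopologicalSpace K] [T1Space K] {j : K → Bool} (hj : Function.Injective j) :
    LindelofSpace (CK XX K) ∧ Metacompact (CK XX K) ∧ Subparacompact (CK XX K) := by
  haveI : Finite K := Finite.of_injective j hj
  haveI := cp_lindelof
  haveI hL : LindelofSpace (CK XX K) := (post_embedding (X := XX) (finite_embedding hj)).LindelofSpace
  exact ⟨hL, meta_of_lindelof, sub_of_lindelof⟩

theorem neg {K : Type} [TopologicalSpace K] [T1Space K] {k : Fin 3 → K} (hk : Function.Injective k) :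
    ¬ LindelofSpace (CK XX K) ∧ ¬ Metacompact (CK XX K) ∧ ¬ Subparacompact (CK XX K) := by
  have he : IsClosedEmbedding (fun p : DD => ((⟨k ∘ (hom p).1.1, _⟩ : CK XX K))) :=
    (post_embedding (X := XX) (finite_embedding hk)).comp hom_embedding
  refine ⟨fun h => DD_not_lindelof he.LindelofSpace, fun h => DD_not_meta (meta_closed he h),
    fun h => DD_not_sub (sub_closed he h)⟩

theorem dich (K : Type) [TopologicalSpace K] [T1Space K] :
    (LindelofSpace (CK XX K) ↔ Cardinal.mk K ≤ 2) ∧ (Metacompact (CK XX K) ↔ Cardinal.mk K ≤ 2) ∧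
      (Subparacompact (CK XX K) ↔ Cardinal.mk K ≤ 2) := by
  by_cases h : Cardinal.mk K ≤ 2
  · have h' : Cardinal.mk K ≤ Cardinal.mk Bool := by simpa using h
    obtain ⟨j⟩ := (Cardinal.le_def _ _).1 h'
    obtain ⟨h1, h2, h3⟩ := pos (K := K) j.injective
    exact ⟨iff_of_true h1 h, iff_of_true h2 h, iff_of_true h3 h⟩
  · have h' : Cardinal.mk (Fin 3) ≤ Cardinal.mk K := by
      have h2 : ((2 : ℕ) : Cardinal.{0}) < Cardinal.mk K := by simpa using h
      have h3 := Order.succ_le_of_lt h2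
      rw [Cardinal.succ_natCast] at h3
      rw [Cardinal.mk_fin]
      exact_mod_cast h3
    obtain ⟨k⟩ := (Cardinal.le_def _ _).1 h'
    obtain ⟨h1, h2, h3⟩ := neg (K := K) k.injective
    exact ⟨iff_of_false h1 h, iff_of_false h2 h, iff_of_false h3 h⟩

/-! ### powers -/

/-- powers of `C_p(X, 2)` -/
def powHom (I : Type) : (I → CK XX Bool) ≃ₜ CK XX (I → Bool) where
  toFun g := ⟨fun x i => (g i).1 x, continuous_pi fun i => (g i).2⟩
  invFun h := fun i => ⟨fun x => h.1 x i, (continuous_apply i).comp h.2⟩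
  left_inv g := rfl
  right_inv h := rfl
  continuous_toFun := by
    refine Continuous.subtype_mk (continuous_pi fun x => continuous_pi fun i => ?_) _
    exact (continuous_apply x).comp (continuous_subtype_val.comp (continuous_apply i))
  continuous_invFun := by
    refine continuous_pi fun i => Continuous.subtype_mk (continuous_pi fun x => ?_) _
    exact (continuous_apply i).comp ((continuous_apply x).comp continuous_subtype_val)

theorem powers (I : Type) :
    (LindelofSpace (I → CK XX Bool) ↔ Subsingleton I) ∧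
      (Metacompact (I → CK XX Bool) ↔ Subsingleton I) ∧
      (Subparacompact (I → CK XX Bool) ↔ Subsingleton I) := by
  classical
  by_cases h : Subsingleton I
  · have hj : Function.Injective (fun g : I → Bool => if hI : Nonempty I then g hI.some else false) := by
      intro g g' hg
      by_cases hI : Nonempty I
      · simp only [hI, dif_pos] at hg
        funext i
        rw [Subsingleton.elim i hI.some]
        exact hg
      · funext i
        exact absurd ⟨i⟩ hI
    obtain ⟨h1, h2, h3⟩ := pos hj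
    have he := (powHom I).isClosedEmbedding
    exact ⟨iff_of_true he.LindelofSpace h, iff_of_true (meta_closed he h2) h,
      iff_of_true (sub_closed he h3) h⟩
  · have hex : ∃ i j : I, i ≠ j := by
      by_contra hc
      push Not at hc
      exact h ⟨hc⟩
    obtain ⟨i, j, hij⟩ := hex
    have hk : Function.Injective (fun (k : Fin 3) (l : I) =>
        if l = i then decide (k = 1) else if l = j then decide (k = 2) else false) := by
      intro k k' hkk
      have e1 := congrFun hkk i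
      have e2 := congrFun hkk j
      simp only [if_true, if_neg hij.symm] at e1 e2
      revert e1 e2
      fin_cases k <;> fin_cases k' <;> simp
    obtain ⟨h1, h2, h3⟩ := neg hk
    have he := (powHom I).symm.isClosedEmbedding
    exact ⟨iff_of_false (fun hL => h1 he.LindelofSpace) h,
      iff_of_false (fun hL => h2 (meta_closed he hL)) h,
      iff_of_false (fun hL => h3 (sub_closed he hL)) h⟩

theorem main : ∃ (X : Type) (_ : TopologicalSpace X), T35Space X ∧
    TopologicalSpace.IsTopologicalBasis {s : Set X | IsClopen s} ∧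
    (∀ (K : Type) [TopologicalSpace K] [T1Space K],
      (LindelofSpace (CK X K) ↔ Cardinal.mk K ≤ 2) ∧ (Metacompact (CK X K) ↔ Cardinal.mk K ≤ 2) ∧
        (Subparacompact (CK X K) ↔ Cardinal.mk K ≤ 2)) ∧
    ∀ I : Type, (LindelofSpace (I → CK X Bool) ↔ Subsingleton I) ∧
      (Metacompact (I → CK X Bool) ↔ Subsingleton I) ∧
      (Subparacompact (I → CK X Bool) ↔ Subsingleton I) :=
  ⟨XX, inferInstance, (Topology.IsEmbedding.mk ⟨rfl⟩ ev_injective).t35Space, basis_clopen,
    fun K => dich K, powers⟩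

end Pool.Agent.Y589.CP
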